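import Pool.Agent.Lib.MP_b5021c_nt.IfaceKV
import Pool.Agent.Lib.MP_b5021c_nt.IfaceE3V
import Pool.Agent.Lib.MP_b5021c_nt.KO.H67.O2
import Pool.Agent.Lib.MP_b5021c_nt.K.H30.C4c
import Pool.Agent.Lib.MP_b5021c_nt.E.H67.Rfc
import Pool.Agent.Lib.MP_b5021c_nt.E.H66.Wn2

/-!
# MP_b5021c_nt, row KV_VSE (helper3): a ray of type (0,0) with a mutual partner is impossible
-/

namespace Pool.Agent.B5.KV.H03

open scoped LaurentPolynomial
open Polynomial
open Pool.Agent.B5.KE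
open Pool.Agent.B5.Nr.Sch
open Pool.Agent.B5.H66 (classV_of)
open Pool.Agent.B5.Clo (classV_prod)

theorem TT : (LaurentPolynomial.T (-1) : RO ℤ) * LaurentPolynomial.T 1 = 1 := by
  rw [← LaurentPolynomial.T_add]; simp

theorem tA_val : ((tA : (RO ℤ)ˣ) : RO ℤ) = -LaurentPolynomial.T (-1) := kap_val

theorem tA_inv : ((tA⁻¹ : (RO ℤ)ˣ) : RO ℤ) = -LaurentPolynomial.T 1 := by
  have h1 : ((tA⁻¹ : (RO ℤ)ˣ) : RO ℤ) * ((tA : (RO ℤ)ˣ) : RO ℤ) = 1 := tA.inv_mul
  rw [tA_val] at h1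
  have h2 := TT
  linear_combination (-LaurentPolynomial.T 1 : RO ℤ) * h1 -
    ((tA⁻¹ : (RO ℤ)ˣ) : RO ℤ) * h2

/-- One-variable facts on `V = E - (1 + X) rho`. -/
theorem V_facts {E rho V : ℤ[X]} {j : ℕ} (hj : 2 ≤ j) (hV : V = E - (1 + X) * rho)
    (E0 : E.coeff 0 = j) (rho0 : rho.coeff 0 = 1) (Ez : ∀ z : ℂ, ‖z‖ ≤ 1 → aeval z E ≠ 0)
    (le : ∀ z : ℂ, ‖z‖ = 1 → ‖aeval z ((1 + X) * rho)‖ ≤ ‖aeval z E‖) :
    V.coeff 0 = (j : ℤ) - 1 ∧ ∀ z : ℂ, ‖z‖ < 1 → aeval z V ≠ 0 := by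
  have h0 : ((1 + X) * rho : ℤ[X]).coeff 0 = 1 := by
    rw [mul_coeff_zero, rho0]; simp
  refine ⟨by rw [hV, coeff_sub, E0, h0], ?_⟩
  have hsp : SP (((1 + X) * rho : ℤ[X]).map (Int.castRingHom ℝ)) (E.map (Int.castRingHom ℝ)) := by
    apply SP.of_circle
    · intro z hz
      rw [aeval_map_real]
      exact Ez z hz
    · intro z hz
      rw [aeval_map_real, aeval_map_real]
      exact le z hz
  intro z hz hz0
  have h2 : (aeval z (((1 + X) * rho : ℤ[X]).map (Int.castRingHom ℝ)) : ℂ) =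
      aeval z (E.map (Int.castRingHom ℝ)) := by
    rw [aeval_map_real, aeval_map_real]
    rw [hV, map_sub, sub_eq_zero] at hz0
    exact hz0.symm
  have h3 := sp_eq hsp hz h2
  have h4 := congrArg (fun r : ℝ[X] => r.coeff 0) h3
  simp only [coeff_map] at h4
  rw [h0, E0] at h4
  have h5 : (1 : ℝ) = j := by simpa using h4
  have h6 : (2 : ℝ) ≤ j := by exact_mod_cast hj
  linarith

/-- The end of the small factors: `t` is a constant. -/
theorem t_end {E rho V : ℤ[X]} {j : ℕ} (hj : 2 ≤ j) (hV : V = E - (1 + X) * rho)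
    (E0 : E.coeff 0 = j) (V0 : V.coeff 0 = (j : ℤ) - 1)
    (Ez : ∀ z : ℂ, ‖z‖ ≤ 1 → aeval z E ≠ 0) (hNr : Nr3S) {t : RO ℤ} (ht : t ≠ 0) (hn : NnR t)
    (he : (toLaurent (E + X * ((1 + X) * rho)) : RO ℤ) =
      (1 + LaurentPolynomial.T 1) * (t * toLaurent V)) : False := by
  obtain ⟨n, g, hg0, hg⟩ := H67.nf_exists ht
  have hj0 : (j : ℤ) - 1 ≠ 0 := by omega
  have h1 : (LaurentPolynomial.T n * toLaurent (g * ((1 + X) * V)) : RO ℤ) =
      LaurentPolynomial.T 0 * toLaurent (E + X * ((1 + X) * rho)) := by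
    rw [he, hg, LaurentPolynomial.T_zero, map_mul, map_mul, map_add, map_one, toLaurent_X]
    ring
  obtain ⟨hn0, hp⟩ := H78.T_eq (by
      rw [mul_coeff_zero, mul_coeff_zero, V0]
      simp only [coeff_add, coeff_one_zero, coeff_X_zero, add_zero, one_mul]
      exact mul_ne_zero hg0 hj0) (by
      rw [coeff_add, E0, coeff_X_mul_zero, add_zero]
      exact_mod_cast (by omega : j ≠ 0)) h1
  have htg : t = toLaurent g := by
    rw [hg, hn0, LaurentPolynomial.T_zero, one_mul]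
  -- `g` is a constant
  have hgc : ∀ k : ℕ, k ≠ 0 → g.coeff k = 0 := by
    intro k hk
    obtain ⟨-, hsym, -⟩ := hNr ℤ t ht hn
    have h2 := (hsym (k : ℤ) (by exact_mod_cast hk)).2
    have h3 : t.coeff (-(k : ℤ)) = 0 := by
      rw [htg, LaurentPolynomial.coeff_toLaurent]
      apply Finsupp.mapDomain_of_notMem_range
      rintro ⟨m, hm⟩
      have hm' : (m : ℤ) = -(k : ℤ) := hm
      omega
    have h4 : t.coeff (k : ℤ) = g.coeff k := by
      rw [htg]
      exact MP_b5021c_nt.Unr.coeff_toLaurent_nat g k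
    rw [h3, map_zero, h4] at h2
    have h5 : (Coef.emb (g.coeff k) : ℂ) = 0 := by
      have := congrArg (starRingEnd ℂ) h2
      rw [map_zero, Complex.conj_conj] at this
      exact this.symm
    have h6 : ((g.coeff k : ℤ) : ℂ) = 0 := h5
    exact_mod_cast h6
  obtain ⟨s, hs⟩ : ∃ s : ℤ, g = C s := ⟨g.coeff 0, by
    ext k
    rw [coeff_C]
    split_ifs with hk
    · rw [hk]
    · exact hgc k hk⟩
  rw [hs] at hp
  have h6 := congrArg (fun p : ℤ[X] => p.coeff 0) hp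
  simp only [mul_coeff_zero, coeff_add, coeff_C_zero, coeff_one_zero, coeff_X_zero, add_zero,
    one_mul, zero_mul, E0, V0] at h6
  -- `s (j - 1) = j`
  have h7 : ((j : ℤ) - 1) ∣ 1 := ⟨s - 1, by linear_combination -h6⟩
  have h8 : (j : ℤ) - 1 = 1 := by
    have := Int.le_of_dvd one_pos h7
    omega
  have h9 : s = 2 := by
    rw [h8] at h6
    have hj2 : (j : ℤ) = 2 := by omega
    rw [hj2] at h6
    omega
  have h10 := congrArg (fun p : ℤ[X] => (aeval (-2 / 3 : ℂ) p : ℂ)) hp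
  rw [h9, hV] at h10
  simp only [map_mul, map_add, map_sub, map_one, aeval_X, aeval_C] at h10
  have h11 : (algebraMap ℤ ℂ) 2 = 2 := by simp
  rw [h11] at h10
  apply Ez (-2 / 3) (by
    rw [norm_div, norm_neg]
    simp only [Complex.norm_ofNat]
    norm_num)
  linear_combination (-3 : ℂ) * h10

/-- Row KV_VSE. -/
theorem kve (hT : TsgS) (hX : KvxS) (hFD : FDS) (hNd : Nd3vS) (hE2 : E2S) (hE1 : E1S)
    (hMV : MVS) (hNr : Nr3S) : KveS := by
  classical
  intro P L _ _ _ _ _ phi G R er u f E rho j K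
  have hj := K.j2
  have hr2 : 2 ≤ Module.finrank ℤ L := by have := K.fr; omega
  obtain ⟨i1, h1⟩ := exists_port K.dd K.ray
  obtain ⟨n0, s0, hs0, hu0⟩ :=
    MP_b5021c_nt.Unr.unit_R ((u⁻¹ : (RO ℤ)ˣ) : RO ℤ) (u⁻¹).isUnit
  rw [LaurentPolynomial.single_eq_C_mul_T] at hu0
  have huu : ((u⁻¹ : (RO ℤ)ˣ) : RO ℤ) * (u : RO ℤ) = 1 := u.inv_mul
  obtain ⟨V, hV⟩ : ∃ V : ℤ[X], V = E - (1 + X) * rho := ⟨_, rfl⟩
  have g0 := K.g0
  have gR := K.gR
  have hsum' : G.coeff 0 + (er : RO ℤ) * G.coeff R =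
      ((u⁻¹ : (RO ℤ)ˣ) : RO ℤ) * toLaurent V := by
    rw [hV, map_sub]
    linear_combination ((u⁻¹ : (RO ℤ)ˣ) : RO ℤ) * g0 + ((u⁻¹ : (RO ℤ)ˣ) : RO ℤ) * gR -
      (G.coeff 0 + (er : RO ℤ) * G.coeff R) * huu
  have hsumT : G.coeff 0 + (er : RO ℤ) * G.coeff R =
      LaurentPolynomial.T n0 * toLaurent (C s0 * V) := by
    rw [hsum', hu0, map_mul, toLaurent_C]
    ring
  -- the circle
  obtain ⟨ez, -, -, -, -, eray⟩ := hE2 ℤ P L phi G K.dd hr2
  have hle : ∀ z : ℂ, ‖z‖ = 1 → ‖(aeval z ((1 + X) * rho) : ℂ)‖ ≤ ‖(aeval z E : ℂ)‖ := by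
    intro z hz
    obtain ⟨zc, rfl⟩ := circle_of z hz
    have h2 := (eray R K.ray).1 zc
    have e1 : ‖evR zc (u : RO ℤ)‖ = 1 := C4C.norm_evR_unit zc u.isUnit
    have e2 : ‖evR zc (er : RO ℤ)‖ = 1 := C4C.norm_evR_unit zc er.isUnit
    have h3 : ‖evR zc (G.coeff R)‖ = ‖(aeval (zc : ℂ) ((1 + X) * rho) : ℂ)‖ := by
      have h4 := congrArg (fun p => ‖evR zc p‖) gR
      simp only [map_mul, map_neg, norm_mul, norm_neg, e1, e2, one_mul] at h4
      rw [h4, ← norm_mul, ← map_mul (evR zc), ← map_mul toLaurent, evR_poly]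
    have h4 : ‖evR zc (G.coeff 0)‖ = ‖(aeval (zc : ℂ) E : ℂ)‖ := by
      rw [← evR_poly, ← g0, map_mul, norm_mul, e1, one_mul]
    rw [h3, h4] at h2
    exact h2
  obtain ⟨V0, Vz⟩ := V_facts hj hV K.E0 K.rho0 K.Ez hle
  obtain ⟨N, hN⟩ : ∃ N : ℕ, N = j - 1 := ⟨_, rfl⟩
  have hN1 : 1 ≤ N := by omega
  have hNj : (N : ℤ) = (j : ℤ) - 1 := by omega
  have hs1 : |(s0 : ℝ)| = 1 := by rcases hs0 with h | h <;> rw [h] <;> simp
  have hcV : ClassV N (G.coeff 0 + (er : RO ℤ) * G.coeff R) := by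
    refine classV_of (by exact_mod_cast hN1) hsumT ?_ ?_
    · rw [mul_coeff_zero, coeff_C_zero, V0, ← hNj, Int.cast_mul, abs_mul, hs1, one_mul,
        Int.cast_natCast, Nat.abs_cast]
    · intro z hz
      rw [show ((C s0 * V).map (Int.castRingHom ℂ)).eval z = aeval z (C s0 * V) from ev_map _ z, map_mul, aeval_C]
      refine mul_ne_zero ?_ (Vz z hz)
      rcases hs0 with h | h <;> rw [h] <;> simp
  have v0 : G.coeff 0 + (er : RO ℤ) * G.coeff R ≠ 0 := ((hMV ℤ).1 _ _ hcV).1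
  have cc : CC phi G R i1 er := ⟨K.dd, hr2, K.ray, h1, v0⟩
  obtain ⟨c, n, H, fd⟩ := hFD ℤ P L phi G R i1 er h1 cc
  -- content
  have hV2 := hcV
  rw [fd.v00] at hV2
  obtain ⟨Nc, Np, hc, hp, hNN⟩ := (hE1 ℤ).1 _ _ _ hV2
  obtain ⟨x, w, hx⟩ := K.x i1 h1
  have hxc : (cl (co phi i1) R h1 er G).coeff x = c * (∏ i, H i).coeff x := by
    rw [fd.eq, H56.cstm]
  rw [hxc] at hx
  obtain ⟨r, hr⟩ : (X : ℤ[X]) ∣ rho - f := by
    rw [X_dvd_iff, coeff_sub, K.rho0, K.f0, sub_self]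
  have hr0 : r.coeff 0 = 1 := by
    rw [← coeff_X_mul r 0, ← hr, coeff_sub]
    have := K.rho1
    linarith
  have hxr : (toLaurent ((1 + X) * (rho - f)) : RO ℤ) =
      LaurentPolynomial.T 1 * toLaurent ((1 + X) * r) := by
    rw [hr, ← toLaurent_X, ← map_mul]
    congr 1
    ring
  have hNc : Nc = 1 := by
    refine H67.low_classV (p := c) (x := (w : RO ℤ) * (∏ i, H i).coeff x) (m := 1)
      (r := (1 + X) * r) ?_ ?_ hc
    · rw [← hxr, ← hx]
      ring
    · rw [mul_coeff_zero, hr0]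
      simp
  have hMc : M c = 1 := by rw [((hMV ℤ).1 _ _ hc).2, hNc]
  -- no pure factor
  have nopure : ∀ l, ¬ Pure phi R i1 (H l) := by
    intro l hl
    obtain ⟨a, ha, b, hb, hab⟩ := fd.wd l
    have key : ∀ a : Ker (co phi i1), (∀ j, phi R j = 0 → phi (a : L) j = 0) → a = 0 := by
      intro a ha
      obtain ⟨k, hk⟩ := K.im (a : L) ha
      have h2 : co phi i1 (a : L) = 0 := a.2
      rw [hk, map_zsmul, h1, smul_eq_mul, mul_one] at h2
      apply Subtype.ext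
      rw [hk, h2, zero_smul]
      rfl
    apply hab
    have h2 : a = 0 := key a fun j hj => hl a ha j (by
      unfold OO
      exact Finset.mem_filter.mpr ⟨Finset.mem_univ _, hj⟩)
    have h3 : b = 0 := key b fun j hj => hl b hb j (by
      unfold OO
      exact Finset.mem_filter.mpr ⟨Finset.mem_univ _, hj⟩)
    rw [h2, h3]
  -- no double zeros
  have nod : ∀ z0 : ℂ, ‖z0‖ = 1 → ¬ (X - C z0) ^ 2 ∣ (C s0 * V).map (Coef.emb : ℤ →+* ℂ) := by
    intro z0 hz0 hd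
    refine hNd (E.map (Coef.emb : ℤ →+* ℂ)) (V.map (Coef.emb : ℤ →+* ℂ)) z0 ?_ ?_ ?_ hz0 ?_
    · intro z hz
      rw [ev_map]
      exact K.Ez z hz
    · intro z hz
      rw [ev_map, ev_map, hV, map_sub, sub_mul, Complex.sub_re, Complex.mul_conj,
        Complex.normSq_eq_norm_sq, Complex.ofReal_re]
      have h2 := hle z hz
      have h3 := Complex.re_le_norm ((aeval z ((1 + X) * rho) : ℂ) *
        (starRingEnd ℂ) (aeval z E : ℂ))
      rw [norm_mul, Complex.norm_conj] at h3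
      have h4 := norm_nonneg (aeval z E : ℂ)
      nlinarith
    · rw [Ne, Polynomial.map_eq_zero_iff emb_inj]
      intro h0
      rw [h0, coeff_zero] at V0
      omega
    · obtain ⟨d, hd⟩ := hd
      have hss : s0 * s0 = 1 := by rcases hs0 with h | h <;> rw [h] <;> norm_num
      refine ⟨(C s0 : ℤ[X]).map (Coef.emb : ℤ →+* ℂ) * d, ?_⟩
      have h2 : V = C s0 * (C s0 * V) := by
        rw [← mul_assoc, ← C_mul, hss, C_1, one_mul]
      conv_lhs => rw [h2]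
      rw [Polynomial.map_mul, hd]
      ring
  -- all factors are big
  have hbig : ∀ l, 1 < M ((H l).coeff 0) := by
    intro l
    by_contra hl
    have hsn : (snp phi R i1 H).Nonempty := by
      refine ⟨l, ?_⟩
      unfold snp
      exact Finset.mem_filter.mpr ⟨Finset.mem_univ _, hl, nopure l⟩
    have hne : er * tA⁻¹ ≠ er := by
      intro h
      have h2 : tA⁻¹ = 1 := mul_eq_left.mp h
      have h3 : ((tA⁻¹ : (RO ℤ)ˣ) : RO ℤ) = 1 := by rw [h2, Units.val_one]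
      rw [tA_inv] at h3
      have h4 := congrArg (fun p : RO ℤ => p.coeff 0) h3
      simp only [AddMonoidAlgebra.coeff_neg, Finsupp.neg_apply] at h4
      rw [← LaurentPolynomial.T_zero, LaurentPolynomial.T_apply, LaurentPolynomial.T_apply,
        if_neg (by norm_num), if_pos rfl] at h4
      norm_num at h4
    obtain ⟨t, ht0, htn, hte⟩ := hT P L phi G R i1 er (er * tA⁻¹) h1 c n H n0 (C s0 * V) fd hMc
      hsn (K.dr i1 h1) hne (K.bad i1 h1) hsumT nod
    refine t_end hj hV K.E0 V0 K.Ez hNr ht0 htn ?_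
    have e3 : ((er * tA⁻¹ : (RO ℤ)ˣ) : RO ℤ) * ((er⁻¹ : (RO ℤ)ˣ) : RO ℤ) =
        -LaurentPolynomial.T 1 := by
      rw [← tA_inv, ← Units.val_mul]
      congr 1
      rw [mul_comm er, mul_assoc, mul_inv_cancel, mul_one]
    have e4 : ((er * tA⁻¹ : (RO ℤ)ˣ) : RO ℤ) = -LaurentPolynomial.T 1 * (er : RO ℤ) := by
      rw [Units.val_mul, tA_inv, mul_comm]
    rw [e3, e4, hsum'] at hte
    have huu' : (u : RO ℤ) * ((u⁻¹ : (RO ℤ)ˣ) : RO ℤ) = 1 := u.mul_inv
    rw [map_add, map_mul toLaurent X, toLaurent_X]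
    linear_combination (u : RO ℤ) * hte - g0 + LaurentPolynomial.T 1 * gR +
      (1 + LaurentPolynomial.T 1) * (t * toLaurent V) * huu'
  -- the extremal closing
  have hrk : rk (supp (cl (co phi i1) R h1 er G)) = 2 * N := by
    have h2 := K.dr i1 h1
    have h3 := K.fr
    omega
  obtain ⟨-, -, hzf⟩ := hX P L phi G R i1 er h1 c n H N fd K.im hN1 hcV hrk hbig
  obtain ⟨k, b, hb⟩ := H78.zfree_mono hzf x
  obtain ⟨zc, hzc⟩ := circle_of (-1) (by simp)
  have hE1' : (aeval (-1 : ℂ) V : ℂ) ≠ 0 := by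
    rw [hV, map_sub, map_mul, map_add, map_one, aeval_X, add_neg_cancel, zero_mul, sub_zero]
    exact K.Ez (-1) (by simp)
  have hb0 : b ≠ 0 := by
    rintro rfl
    rw [hb, map_zero, zero_mul, mul_zero, mul_zero, hxr] at hx
    have h2 := (mul_eq_zero.mp hx.symm).resolve_left (LaurentPolynomial.isUnit_T 1).ne_zero
    have h3 := toLaurent_eq_zero.mp h2
    have h4 := congrArg (fun p : ℤ[X] => p.coeff 0) h3
    simp only [mul_coeff_zero, hr0, coeff_add, coeff_one_zero, coeff_X_zero, coeff_zero] at h4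
    norm_num at h4
  have hcz : evR zc c = 0 := by
    have h2 := congrArg (evR zc) hx
    rw [evR_poly, hzc, map_mul (aeval (-1 : ℂ)), map_add, map_one, aeval_X, add_neg_cancel,
      zero_mul, map_mul, map_mul] at h2
    have h3 : evR zc (w : RO ℤ) ≠ 0 := by
      intro h0
      have := C4C.norm_evR_unit zc w.isUnit
      rw [h0, norm_zero] at this
      exact zero_ne_one this
    have h4 : evR zc ((∏ i, H i).coeff x) ≠ 0 := by
      intro h0
      have h5 := norm_evR' zc k (C b)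
      rw [toLaurent_C, mul_comm, ← hb, h0, norm_zero, aeval_C] at h5
      have h6 : (algebraMap ℤ ℂ) b = 0 := norm_eq_zero.mp h5.symm
      apply hb0
      simpa using h6
    exact (mul_eq_zero.mp ((mul_eq_zero.mp h2).resolve_left h3)).resolve_right h4
  have h2 := congrArg (evR zc) fd.v00
  rw [hsum', map_mul, map_mul (evR zc) c, hcz, zero_mul, evR_poly, hzc] at h2
  rcases mul_eq_zero.mp h2 with h3 | h3
  · have := C4C.norm_evR_unit zc (u⁻¹).isUnit
    rw [h3, norm_zero] at this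
    exact zero_ne_one this
  · exact hE1' h3

end Pool.Agent.B5.KV.H03
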